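import Pool.Agent.H500.HC.Stm

/-!
# Project HC of helper500, part B1 (helper71): places of degree one, Chinese remainder theorem
-/

set_option autoImplicit false

namespace Pool.Agent.H71.HC.Crt

open NumberField IsDedekindDomain Pool.Agent.H500.HC

/-- the homomorphism of the rings of integers -/
noncomputable abbrev mh {K E : Type} [Field K] [Field E] (σ : K →+* E) : 𝓞 K →+* 𝓞 E :=
  RingOfIntegers.mapRingHom σ

section

variable {K E : Type} [Field K] [NumberField K] [Field E] [NumberField E]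

omit [NumberField E] in
theorem exists_ne {σ τ : K →+* E} (h : σ ≠ τ) : ∃ x : 𝓞 K, mh σ x ≠ mh τ x := by
  by_contra hcon
  push Not at hcon
  apply h
  have h1 : σ.comp (algebraMap (𝓞 K) K) = τ.comp (algebraMap (𝓞 K) K) := by
    ext x
    exact congrArg (fun z : 𝓞 E => (z : E)) (hcon x)
  exact IsLocalization.ringHom_ext (nonZeroDivisors (𝓞 K)) h1

theorem exists_bound (K E : Type) [Field K] [NumberField K] [Field E] [NumberField E] :
    ∃ B : ℕ, ∀ lam : HeightOneSpectrum (𝓞 E), B < Ideal.absNorm lam.asIdeal →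
      ∀ σ τ : K →+* E, σ ≠ τ → ∃ x : 𝓞 K, mh σ x - mh τ x ∉ lam.asIdeal := by
  classical
  choose! x hx using fun (σ τ : K →+* E) (h : σ ≠ τ) => exists_ne h
  refine ⟨∑ σ : K →+* E, ∑ τ : K →+* E,
    Ideal.absNorm (Ideal.span {mh σ (x σ τ) - mh τ (x σ τ)}),
    fun lam hlam σ τ hστ => ⟨x σ τ, fun hmem => ?_⟩⟩
  have h1 : Ideal.absNorm lam.asIdeal ∣
      Ideal.absNorm (Ideal.span {mh σ (x σ τ) - mh τ (x σ τ)}) :=
    Ideal.absNorm_dvd_absNorm_of_le ((Ideal.span_singleton_le_iff_mem _).2 hmem)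
  have h2 : Ideal.absNorm (Ideal.span {mh σ (x σ τ) - mh τ (x σ τ)}) ≠ 0 := by
    rw [Ne, Ideal.absNorm_eq_zero_iff, Ideal.span_singleton_eq_bot]
    exact sub_ne_zero.2 (hx σ τ hστ)
  have h3 := Nat.le_of_dvd (Nat.pos_of_ne_zero h2) h1
  have h4 : Ideal.absNorm (Ideal.span {mh σ (x σ τ) - mh τ (x σ τ)}) ≤
      ∑ σ : K →+* E, ∑ τ : K →+* E, Ideal.absNorm (Ideal.span {mh σ (x σ τ) - mh τ (x σ τ)}) :=
    (Finset.single_le_sum (f := fun τ : K →+* E =>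
      Ideal.absNorm (Ideal.span {mh σ (x σ τ) - mh τ (x σ τ)})) (fun _ _ => Nat.zero_le _)
      (Finset.mem_univ τ)).trans
    (Finset.single_le_sum (f := fun σ : K →+* E => ∑ τ : K →+* E,
      Ideal.absNorm (Ideal.span {mh σ (x σ τ) - mh τ (x σ τ)})) (fun _ _ => Nat.zero_le _)
      (Finset.mem_univ σ))
  omega

variable (lam : HeightOneSpectrum (𝓞 E))

theorem exists_int (hl : (Ideal.absNorm lam.asIdeal).Prime) (z : 𝓞 E) :
    ∃ c : ℤ, z - c ∈ lam.asIdeal := by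
  have hfin : Finite (𝓞 E ⧸ lam.asIdeal) := (Ideal.absNorm_ne_zero_iff _).1 hl.ne_zero
  let _ := Fintype.ofFinite (𝓞 E ⧸ lam.asIdeal)
  have hcard : Fintype.card (𝓞 E ⧸ lam.asIdeal) = Ideal.absNorm lam.asIdeal := by
    rw [Ideal.absNorm_apply, Submodule.cardQuot_apply, Nat.card_eq_fintype_card]
  let e := ZMod.ringEquivOfPrime (𝓞 E ⧸ lam.asIdeal) hl hcard
  obtain ⟨c, hc⟩ := ZMod.intCast_surjective (e.symm (Ideal.Quotient.mk lam.asIdeal z))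
  refine ⟨c, ?_⟩
  have h := congrArg e hc
  rw [e.apply_symm_apply, map_intCast] at h
  rw [← Ideal.Quotient.eq, ← h, map_intCast]

/-- the prime of `K` below `lam` for the embedding `σ` -/
noncomputable def w (σ : K →+* E) : Ideal (𝓞 K) := lam.asIdeal.comap (mh σ)

omit [NumberField K] [NumberField E] in
theorem mem_w {σ : K →+* E} {x : 𝓞 K} : x ∈ w lam σ ↔ mh σ x ∈ lam.asIdeal := Iff.rfl

theorem absNorm_w (hl : (Ideal.absNorm lam.asIdeal).Prime) (σ : K →+* E) :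
    Ideal.absNorm (w lam σ) = Ideal.absNorm lam.asIdeal := by
  show Ideal.absNorm (lam.asIdeal.comap (mh σ)) = Ideal.absNorm lam.asIdeal
  rw [Ideal.absNorm_apply, Ideal.absNorm_apply, Submodule.cardQuot_apply,
    Submodule.cardQuot_apply]
  refine Nat.card_congr (Equiv.ofBijective (Ideal.quotientMap lam.asIdeal (mh σ) le_rfl)
    ⟨Ideal.quotientMap_injective, ?_⟩)
  intro z
  obtain ⟨z, rfl⟩ := Ideal.Quotient.mk_surjective z
  obtain ⟨c, hc⟩ := exists_int lam hl z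
  refine ⟨Ideal.Quotient.mk _ (c : 𝓞 K), ?_⟩
  rw [Ideal.quotientMap_mk, map_intCast]
  exact (Ideal.Quotient.eq.2 hc).symm

theorem isMaximal_w (hl : (Ideal.absNorm lam.asIdeal).Prime) (σ : K →+* E) :
    (w lam σ).IsMaximal := by
  have h1 : (w lam σ).IsPrime := Ideal.comap_isPrime (mh σ) lam.asIdeal
  refine h1.isMaximal fun h => ?_
  have h2 := absNorm_w lam hl σ
  rw [h, Ideal.absNorm_bot] at h2
  exact hl.ne_zero h2.symm

omit [NumberField K] in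
theorem w_ne (hl : (Ideal.absNorm lam.asIdeal).Prime) {σ τ : K →+* E}
    (h : ∃ x : 𝓞 K, mh σ x - mh τ x ∉ lam.asIdeal) : w lam σ ≠ w lam τ := by
  intro he
  obtain ⟨x, hx⟩ := h
  obtain ⟨c, hc⟩ := exists_int lam hl (mh σ x)
  have h1 : x - (c : 𝓞 K) ∈ w lam σ := by
    rw [mem_w, map_sub, map_intCast]
    exact hc
  rw [he, mem_w, map_sub, map_intCast] at h1
  apply hx
  have h2 : mh σ x - mh τ x = (mh σ x - c) - (mh τ x - c) := by ring
  rw [h2]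
  exact lam.asIdeal.sub_mem hc h1

theorem coprime_w (hl : (Ideal.absNorm lam.asIdeal).Prime)
    (hB : ∀ σ τ : K →+* E, σ ≠ τ → ∃ x : 𝓞 K, mh σ x - mh τ x ∉ lam.asIdeal) :
    Pairwise (Function.onFun IsCoprime (fun σ : K →+* E => w lam σ)) := by
  intro σ τ hστ
  show IsCoprime (w lam σ) (w lam τ)
  rw [Ideal.isCoprime_iff_sup_eq]
  exact (isMaximal_w lam hl σ).coprime_of_ne (isMaximal_w lam hl τ) (w_ne lam hl (hB σ τ hστ))

/-- `l 𝓞_K` is the product of the primes below `lam` -/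
theorem span_eq (hl : (Ideal.absNorm lam.asIdeal).Prime)
    (hB : ∀ σ τ : K →+* E, σ ≠ τ → ∃ x : 𝓞 K, mh σ x - mh τ x ∉ lam.asIdeal)
    (hKE : Fintype.card (K →+* E) = Module.finrank ℚ K) :
    Ideal.span {((Ideal.absNorm lam.asIdeal : ℕ) : 𝓞 K)} = ∏ σ : K →+* E, w lam σ := by
  classical
  have h1 : (∏ σ : K →+* E, w lam σ) ∣ Ideal.span {((Ideal.absNorm lam.asIdeal : ℕ) : 𝓞 K)} := by
    rw [Ideal.dvd_iff_le, Ideal.span_singleton_le_iff_mem,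
      Ideal.prod_eq_iInf_of_pairwise_isCoprime fun σ _ τ _ h => coprime_w lam hl hB h]
    simp only [Ideal.mem_iInf]
    intro σ _
    rw [mem_w, map_natCast]
    exact Ideal.absNorm_mem lam.asIdeal
  obtain ⟨J, hJ⟩ := h1
  have h2 := congrArg Ideal.absNorm hJ
  rw [map_mul, map_prod, Finset.prod_congr rfl fun σ _ => absNorm_w lam hl σ, Finset.prod_const,
    Finset.card_univ, hKE, Ideal.absNorm_span_natCast, RingOfIntegers.rank] at h2
  have h3 : Ideal.absNorm J = 1 := by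
    have h4 : Ideal.absNorm lam.asIdeal ^ Module.finrank ℚ K ≠ 0 := pow_ne_zero _ hl.ne_zero
    have h5 : Ideal.absNorm lam.asIdeal ^ Module.finrank ℚ K * 1 =
        Ideal.absNorm lam.asIdeal ^ Module.finrank ℚ K * Ideal.absNorm J := by
      rw [mul_one]
      exact h2
    exact (Nat.eq_of_mul_eq_mul_left (Nat.pos_of_ne_zero h4) h5).symm
  rw [hJ, Ideal.absNorm_eq_one_iff.1 h3, Ideal.mul_top]

theorem dvd_of_mem (hl : (Ideal.absNorm lam.asIdeal).Prime)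
    (hB : ∀ σ τ : K →+* E, σ ≠ τ → ∃ x : 𝓞 K, mh σ x - mh τ x ∉ lam.asIdeal)
    (hKE : Fintype.card (K →+* E) = Module.finrank ℚ K) (x : 𝓞 K)
    (hx : ∀ σ : K →+* E, mh σ x ∈ lam.asIdeal) :
    ((Ideal.absNorm lam.asIdeal : ℕ) : 𝓞 K) ∣ x := by
  rw [← Ideal.mem_span_singleton, span_eq lam hl hB hKE,
    Ideal.prod_eq_iInf_of_pairwise_isCoprime fun σ _ τ _ h => coprime_w lam hl hB h]
  simp only [Ideal.mem_iInf]
  exact fun σ _ => hx σ

/-- totally positive translates -/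
theorem exists_pos (y : 𝓞 K) (q : ℕ) (hq : 0 < q) :
    ∃ n : ℕ, y + ((n * q : ℕ) : 𝓞 K) ≠ 0 ∧ TotPos (y + ((n * q : ℕ) : 𝓞 K)) := by
  classical
  let n₀ : ℕ := ∑ τ : K →+* ℝ, (⌈|τ (y : K)|⌉₊ + 1)
  have hpos : ∀ n : ℕ, n₀ ≤ n → TotPos (y + ((n * q : ℕ) : 𝓞 K)) := by
    intro n hn τ
    have h1 : ⌈|τ (y : K)|⌉₊ + 1 ≤ n₀ :=
      Finset.single_le_sum (f := fun τ : K →+* ℝ => ⌈|τ (y : K)|⌉₊ + 1)
        (fun _ _ => Nat.zero_le _) (Finset.mem_univ τ)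
    have h2 : |τ (y : K)| ≤ (⌈|τ (y : K)|⌉₊ : ℝ) := Nat.le_ceil _
    have h3 : (⌈|τ (y : K)|⌉₊ : ℝ) + 1 ≤ ((n * q : ℕ) : ℝ) := by
      have h4 : ⌈|τ (y : K)|⌉₊ + 1 ≤ n * q :=
        (h1.trans hn).trans (Nat.le_mul_of_pos_right n hq)
      exact_mod_cast h4
    have h5 : τ ((y + ((n * q : ℕ) : 𝓞 K) : 𝓞 K) : K) = τ (y : K) + ((n * q : ℕ) : ℝ) := by
      have h7 : ((y + ((n * q : ℕ) : 𝓞 K) : 𝓞 K) : K) = (y : K) + ((n * q : ℕ) : K) := by
        push_cast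
        rfl
      rw [h7, map_add, map_natCast]
    rw [h5]
    have h6 := neg_abs_le (τ (y : K))
    linarith
  by_cases h0 : y + ((n₀ * q : ℕ) : 𝓞 K) = 0
  · refine ⟨n₀ + 1, fun h1 => ?_, hpos _ (Nat.le_succ _)⟩
    have h2 : ((q : ℕ) : 𝓞 K) = 0 := by
      have h3 : y + (((n₀ + 1) * q : ℕ) : 𝓞 K) = (y + ((n₀ * q : ℕ) : 𝓞 K)) + (q : 𝓞 K) := by
        push_cast
        ring
      rw [h3, h0, zero_add] at h1
      exact h1
    exact hq.ne' (Nat.cast_eq_zero.1 h2)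
  · exact ⟨n₀, h0, hpos _ le_rfl⟩

end

theorem main : S_Crt := by
  intro K E _ _ _ _ hKE
  obtain ⟨B, hB⟩ := exists_bound K E
  refine ⟨B, fun lam hl hlB => ⟨dvd_of_mem lam hl (hB lam hlB) hKE, fun M hM hlM g => ?_⟩⟩
  set l := Ideal.absNorm lam.asIdeal with hldef
  obtain ⟨y₀, hy₀⟩ := Ideal.exists_forall_sub_mem_ideal (coprime_w lam hl (hB lam hlB))
    (fun σ => (g σ : 𝓞 K))
  have hcop : IsCoprime (l : ℤ) (M : ℤ) :=
    Nat.isCoprime_iff_coprime.2 ((Nat.Prime.coprime_iff_not_dvd hl).2 hlM)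
  obtain ⟨a, b, hab⟩ := hcop
  -- `y₁ ≡ y₀ mod l` and `y₁ ≡ 1 mod M`
  let y₁ : 𝓞 K := y₀ + ((a * l : ℤ) : 𝓞 K) * (1 - y₀)
  have hab' : (a : 𝓞 K) * (l : 𝓞 K) + (b : 𝓞 K) * (M : 𝓞 K) = 1 := by
    exact_mod_cast congrArg (fun z : ℤ => (z : 𝓞 K)) hab
  obtain ⟨n, hn0, hn1⟩ := exists_pos y₁ (M * l) (Nat.mul_pos hM hl.pos)
  refine ⟨y₁ + ((n * (M * l) : ℕ) : 𝓞 K), ⟨hn0, ?_, hn1⟩, fun σ => ?_⟩
  · refine ⟨(b : 𝓞 K) * (y₀ - 1) + (n : 𝓞 K) * (l : 𝓞 K), ?_⟩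
    have h1 : (a : 𝓞 K) * (l : 𝓞 K) = 1 - (b : 𝓞 K) * (M : 𝓞 K) := by
      rw [← hab']
      ring
    show y₀ + ((a * l : ℤ) : 𝓞 K) * (1 - y₀) + ((n * (M * l) : ℕ) : 𝓞 K) - 1 = _
    push_cast
    rw [h1]
    ring
  · have h2 : (l : 𝓞 E) ∈ lam.asIdeal := Ideal.absNorm_mem lam.asIdeal
    have h3 : mh σ y₀ - (g σ : 𝓞 E) ∈ lam.asIdeal := by
      have h4 := hy₀ σ
      rw [mem_w, map_sub, map_intCast] at h4
      exact h4
    have h5 : mh σ (y₁ + ((n * (M * l) : ℕ) : 𝓞 K)) - (g σ : 𝓞 E) =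
        (mh σ y₀ - (g σ : 𝓞 E)) + ((a : 𝓞 E) * (1 - mh σ y₀) + (n : 𝓞 E) * (M : 𝓞 E)) *
          (l : 𝓞 E) := by
      show mh σ (y₀ + ((a * l : ℤ) : 𝓞 K) * (1 - y₀) + ((n * (M * l) : ℕ) : 𝓞 K)) - _ = _
      simp only [map_add, map_mul, map_sub, map_one, map_intCast, map_natCast]
      push_cast
      ring
    rw [h5]
    exact lam.asIdeal.add_mem h3 (lam.asIdeal.mul_mem_left _ h2)

end Pool.Agent.H71.HC.Crt
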